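import Pool.Agent.N229.PG.Stm

/-! Project PG, leaf K1: the kernel in polar coordinates. -/

namespace PG

open Complex

theorem k1_re (α σ : ℝ) (s : ℂ) :
    (den α σ s).re = ‖s‖ ^ α * Real.sin (Real.pi * α / 2 + s.arg * α) + s.re / σ := by
  have h1 : (s ^ (α : ℂ)).re = ‖s‖ ^ α * Real.cos (s.arg * α) := Complex.cpow_ofReal_re s α
  have h2 : (s ^ (α : ℂ)).im = ‖s‖ ^ α * Real.sin (s.arg * α) := Complex.cpow_ofReal_im s α
  have h3 : (s / (σ : ℂ)).re = s.re / σ := Complex.div_ofReal_re s σ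
  rw [den, Complex.add_re, Complex.mul_re, h1, h2, h3, Real.sin_add]
  simp only [cst]
  ring

theorem k1_im (α σ : ℝ) (s : ℂ) :
    (den α σ s).im = - (‖s‖ ^ α * Real.cos (Real.pi * α / 2 + s.arg * α)) + s.im / σ := by
  have h1 : (s ^ (α : ℂ)).re = ‖s‖ ^ α * Real.cos (s.arg * α) := Complex.cpow_ofReal_re s α
  have h2 : (s ^ (α : ℂ)).im = ‖s‖ ^ α * Real.sin (s.arg * α) := Complex.cpow_ofReal_im s α
  have h3 : (s / (σ : ℂ)).im = s.im / σ := Complex.div_ofReal_im s σ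
  rw [den, Complex.add_im, Complex.mul_im, h1, h2, h3, Real.cos_add]
  simp only [cst]
  ring

theorem k1_bound (A B p q a b : ℝ) (hA : 0 ≤ A) (hB : 0 ≤ B) (hpq : p ^ 2 + q ^ 2 = 1)
    (hab : a ^ 2 + b ^ 2 = 1) {C S : ℝ} (hCS : C ^ 2 + S ^ 2 = 1)
    (h : -C ≤ p * a - q * b) :
    (S * A) ^ 2 ≤ (A * p + B * a) ^ 2 + (-(A * q) + B * b) ^ 2 ∧
    (S * B) ^ 2 ≤ (A * p + B * a) ^ 2 + (-(A * q) + B * b) ^ 2 := by
  have e : (A * p + B * a) ^ 2 + (-(A * q) + B * b) ^ 2 =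
      A ^ 2 * (p ^ 2 + q ^ 2) + B ^ 2 * (a ^ 2 + b ^ 2) + 2 * (A * B) * (p * a - q * b) := by
    ring
  rw [e, hpq, hab]
  have hAB : 0 ≤ A * B := mul_nonneg hA hB
  have h' : 2 * (A * B) * (-C) ≤ 2 * (A * B) * (p * a - q * b) :=
    mul_le_mul_of_nonneg_left h (by positivity)
  have hS : S ^ 2 = 1 - C ^ 2 := by linarith
  constructor
  · have : (S * A) ^ 2 = A ^ 2 - C ^ 2 * A ^ 2 := by rw [mul_pow, hS]; ring
    nlinarith [sq_nonneg (B - A * C)]
  · have : (S * B) ^ 2 = B ^ 2 - C ^ 2 * B ^ 2 := by rw [mul_pow, hS]; ring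
    nlinarith [sq_nonneg (A - B * C)]

theorem k1_norm_sq (z : ℂ) : ‖z‖ ^ 2 = z.re ^ 2 + z.im ^ 2 := by
  rw [Complex.sq_norm, Complex.normSq_apply]; ring

theorem leaf_K1 : StmK1 := by
  intro α hα hα1 σ hσ s hs
  have hpi := Real.pi_pos
  rcases eq_or_ne s 0 with rfl | hs0
  · have h0 : den α σ 0 = 0 := by
      rw [den, Complex.zero_cpow (by exact_mod_cast hα.ne')]; simp
    rw [h0]
    simp [Real.zero_rpow hα.ne']
  have hr : 0 < ‖s‖ := norm_pos_iff.mpr hs0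
  obtain ⟨φ, hφ⟩ : ∃ φ : ℝ, φ = s.arg := ⟨_, rfl⟩
  obtain ⟨A, hA⟩ : ∃ A : ℝ, A = ‖s‖ ^ α := ⟨_, rfl⟩
  obtain ⟨B, hB⟩ : ∃ B : ℝ, B = ‖s‖ / σ := ⟨_, rfl⟩
  obtain ⟨β, hβ⟩ : ∃ β : ℝ, β = Real.pi * α / 2 + φ * α := ⟨_, rfl⟩
  have hA0 : 0 ≤ A := by rw [hA]; positivity
  have hB0 : 0 ≤ B := by rw [hB]; positivity
  have hφ2 : |φ| ≤ Real.pi / 2 := by
    rw [hφ]; exact Complex.abs_arg_le_pi_div_two_iff.mpr hs
  obtain ⟨hφl, hφu⟩ := abs_le.mp hφ2
  have hcosφ : 0 ≤ Real.cos φ := Real.cos_nonneg_of_mem_Icc ⟨by linarith, hφu⟩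
  have hsre : s.re = ‖s‖ * Real.cos φ := by
    rw [hφ]; exact (Complex.norm_mul_cos_arg s).symm
  have hsim : s.im = ‖s‖ * Real.sin φ := by
    rw [hφ]; exact (Complex.norm_mul_sin_arg s).symm
  have hre : (den α σ s).re = A * Real.sin β + B * Real.cos φ := by
    rw [k1_re, ← hφ, ← hβ, ← hA, hsre, hB]; ring
  have him : (den α σ s).im = -(A * Real.cos β) + B * Real.sin φ := by
    rw [k1_im, ← hφ, ← hβ, ← hA, hsim, hB]; ring
  have hβ0 : 0 ≤ β := by
    rw [hβ]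
    have : 0 ≤ α * (Real.pi / 2 + φ) := mul_nonneg hα.le (by linarith)
    linarith
  have hβ1 : β ≤ Real.pi := by
    rw [hβ]
    have h1 : α * (Real.pi / 2 + φ) ≤ 1 * (Real.pi / 2 + φ) :=
      mul_le_mul_of_nonneg_right hα1.le (by linarith)
    linarith
  have hsinβ : 0 ≤ Real.sin β := Real.sin_nonneg_of_nonneg_of_le_pi hβ0 hβ1
  -- the lower bound of the cross term
  have hcross : -Real.cos (Real.pi * α) ≤ Real.sin β * Real.cos φ - Real.cos β * Real.sin φ := by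
    rw [← Real.sin_sub]
    have e1 : β - φ = Real.pi / 2 - (1 - α) * (Real.pi / 2 + φ) := by rw [hβ]; ring
    rw [e1, Real.sin_pi_div_two_sub]
    have e2 : -Real.cos (Real.pi * α) = Real.cos ((1 - α) * Real.pi) := by
      rw [← Real.cos_pi_sub]; congr 1; ring
    rw [e2]
    apply Real.cos_le_cos_of_nonneg_of_le_pi
    · exact mul_nonneg (by linarith) (by linarith)
    · have : (1 - α) * Real.pi ≤ 1 * Real.pi :=
        mul_le_mul_of_nonneg_right (by linarith) hpi.le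
      linarith
    · exact mul_le_mul_of_nonneg_left (by linarith) (by linarith)
  have hsinpa : 0 ≤ Real.sin (Real.pi * α) := by
    apply Real.sin_nonneg_of_nonneg_of_le_pi (by positivity)
    have : Real.pi * α ≤ Real.pi * 1 := mul_le_mul_of_nonneg_left hα1.le hpi.le
    linarith
  have hb := k1_bound A B (Real.sin β) (Real.cos β) (Real.cos φ) (Real.sin φ) hA0 hB0
    (Real.sin_sq_add_cos_sq β) (Real.cos_sq_add_sin_sq φ)
    (Real.cos_sq_add_sin_sq (Real.pi * α)) hcross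
  have hn : ‖den α σ s‖ ^ 2 = (A * Real.sin β + B * Real.cos φ) ^ 2 +
      (-(A * Real.cos β) + B * Real.sin φ) ^ 2 := by
    rw [k1_norm_sq, hre, him]
  refine ⟨?_, ?_, ?_, ?_, ?_⟩
  · rw [hre]; positivity
  · rw [← hA]
    refine le_of_sq_le_sq ?_ (norm_nonneg _)
    rw [hn]; exact hb.1
  · rw [← hB]
    refine le_of_sq_le_sq ?_ (norm_nonneg _)
    rw [hn]; exact hb.2
  · have hc : ‖cst α‖ = 1 := by
      have : ‖cst α‖ ^ 2 = 1 := by
        rw [k1_norm_sq]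
        simp only [cst]
        have := Real.sin_sq_add_cos_sq (Real.pi * α / 2)
        nlinarith
      have h0 := norm_nonneg (cst α)
      nlinarith
    have hcp : ‖s ^ (α : ℂ)‖ = ‖s‖ ^ α := by
      rw [Complex.norm_cpow_real]
    calc ‖den α σ s‖ ≤ ‖cst α * s ^ (α : ℂ)‖ + ‖s / (σ : ℂ)‖ := norm_add_le _ _
      _ = ‖s‖ ^ α + ‖s‖ / σ := by
          rw [norm_mul, hc, hcp, one_mul, norm_div, Complex.norm_real, Real.norm_of_nonneg hσ.le]
  · have e3 : ((starRingEnd ℂ) (cst α) * den α σ s).re =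
        A * Real.cos (φ * α) + B * Real.sin (Real.pi * α / 2 - φ) := by
      rw [Complex.mul_re, Complex.conj_re, Complex.conj_im, hre, him]
      simp only [cst]
      rw [hβ, Real.sin_add, Real.cos_add, Real.sin_sub]
      have h1 := Real.sin_sq_add_cos_sq (Real.pi * α / 2)
      have h2 : Real.sin (Real.pi * α / 2) ^ 2 = 1 - Real.cos (Real.pi * α / 2) ^ 2 := by
        linarith
      linear_combination (A * Real.cos (φ * α)) * h1
    rw [e3, ← hA, ← hB]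
    have h4 : Real.cos (Real.pi * α / 2) ≤ Real.cos (φ * α) := by
      rw [← Real.cos_abs (φ * α)]
      apply Real.cos_le_cos_of_nonneg_of_le_pi (abs_nonneg _)
      · have : Real.pi * α ≤ Real.pi * 1 := mul_le_mul_of_nonneg_left hα1.le hpi.le
        linarith
      · rw [abs_mul, abs_of_pos hα]
        have : |φ| * α ≤ Real.pi / 2 * α := mul_le_mul_of_nonneg_right hφ2 hα.le
        linarith
    have h5 : Real.cos (Real.pi * α / 2) * A ≤ A * Real.cos (φ * α) := by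
      rw [mul_comm]; exact mul_le_mul_of_nonneg_left h4 hA0
    have h6 : -B ≤ B * Real.sin (Real.pi * α / 2 - φ) := by
      have := Real.neg_one_le_sin (Real.pi * α / 2 - φ)
      nlinarith
    linarith

end PG
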